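import Pool.Agent.Lib.MP_4fbe7c_an.UL.Iface
import Pool.Agent.Lib.MP_4fbe7c_an.SD.STB

/-!
Module CRB of project UL (MP_4fbe7c_an): for a large smallest rate the steady state is nearly
constant, so the criterion CRI applies.
-/

set_option autoImplicit false

open Set MeasureTheory intervalIntegral

namespace Pool.Agent.Lib.MP_4fbe7c_an.UL.H93

open Pool.Agent.Lib.MP_4fbe7c_an.SD Pool.Agent.Lib.MP_4fbe7c_an.FC
  Pool.Agent.Lib.MP_4fbe7c_an.SD.H95

theorem crb (hcri : CriStatement) : CrbStatement := by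
  intro L m hL hm hnc hI
  obtain ⟨D₀, c, M, C, hD₀, hc, hM, hC, hb⟩ := steady_bounds hL hm hI
  refine ⟨max D₀ (max (1000 * C * L / c) (1000 * C ^ 2 / c ^ 3)),
    lt_of_lt_of_le hD₀ (le_max_left _ _), ?_⟩
  intro N d i₀ θ θ' θ'' hD hlt hθ
  have hD1 : D₀ ≤ d i₀ := (le_max_left _ _).trans hD
  have hD2 : 1000 * C * L / c ≤ d i₀ :=
    ((le_max_left _ _).trans (le_max_right _ _)).trans hD
  have hD3 : 1000 * C ^ 2 / c ^ 3 ≤ d i₀ :=
    ((le_max_right _ _).trans (le_max_right _ _)).trans hD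
  have hd : 0 < d i₀ := lt_of_lt_of_le hD₀ hD1
  have hb' := hb (d i₀) hD1 θ θ' θ'' hθ
  have hne : (Icc (0 : ℝ) L).Nonempty := ⟨0, le_refl 0, hL.le⟩
  obtain ⟨x0, hx0, hmin⟩ := isCompact_Icc.exists_isMinOn hne (st_c0 hθ)
  have hcx0 : c ≤ θ x0 := (hb' x0 hx0).1
  have hd1 : ∀ x ∈ Icc 0 L, |θ' x| ≤ C / d i₀ := fun x hx => (hb' x hx).2.2
  refine hcri L (θ x0) (1001 / 1000 * θ x0) m θ θ' θ'' N d i₀ hL hm hnc hd hlt hθ
    (lt_of_lt_of_le hc hcx0) (le_refl _) ?_ ?_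
  · intro x hx
    refine ⟨hmin hx, ?_⟩
    have h1 := abs_sub_le hθ.d1 (st_c1 hθ) hd1 hx hx0
    have h2 : |x - x0| ≤ L := by
      rw [abs_le]; constructor <;> linarith [hx.1, hx.2, hx0.1, hx0.2]
    have h3 : C / d i₀ * |x - x0| ≤ c / 1000 := by
      have h4 : C / d i₀ * |x - x0| ≤ C / d i₀ * L :=
        mul_le_mul_of_nonneg_left h2 (by positivity)
      have h5 : C / d i₀ * L ≤ c / 1000 := by
        rw [div_mul_eq_mul_div, div_le_iff₀ hd]
        rw [div_le_iff₀ hc] at hD2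
        linarith
      exact h4.trans h5
    have h6 := (abs_le.mp (h1.trans h3)).2
    linarith
  · intro x hx
    have hcx : c ≤ θ x := (hb' x hx).1
    have hpos : 0 < θ x := lt_of_lt_of_le hc hcx
    have h1 : |θ' x / θ x| ≤ C / d i₀ / c := by
      rw [abs_div, abs_of_pos hpos]
      exact div_le_div₀ (by positivity) (hd1 x hx) hc hcx
    have h2 : (θ' x / θ x) ^ 2 ≤ (C / d i₀ / c) ^ 2 := by
      rw [← sq_abs (θ' x / θ x)]
      exact pow_le_pow_left₀ (abs_nonneg _) h1 2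
    have h3 : d i₀ * (θ' x / θ x) ^ 2 ≤ d i₀ * (C / d i₀ / c) ^ 2 :=
      mul_le_mul_of_nonneg_left h2 hd.le
    have h4 : d i₀ * (C / d i₀ / c) ^ 2 = C ^ 2 / (d i₀ * c ^ 2) := by
      field_simp
    have h5 : C ^ 2 / (d i₀ * c ^ 2) ≤ c / 1000 := by
      rw [div_le_iff₀ (by positivity)]
      rw [div_le_iff₀ (by positivity)] at hD3
      have : c / 1000 * (d i₀ * c ^ 2) = d i₀ * c ^ 3 / 1000 := by ring
      rw [this]
      linarith
    rw [h4] at h3
    linarith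

end Pool.Agent.Lib.MP_4fbe7c_an.UL.H93
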